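import Pool.Agent.H33.NFA.A
import Pool.Agent.H50.NF.NCO
import Pool.Agent.H69.HYP.CHP
import Pool.Agent.H2.HYP.KEY
import Pool.Agent.H96.T1.KEYK

/-!
# NFA, row CNA: the number of the classes with the same degrees
-/

set_option autoImplicit false
set_option linter.unusedSectionVars false

namespace Pool.NFA

open Polynomial Matrix NumberField IsDedekindDomain Pool.HYP Pool.TOW Pool.AVS Pool.T1 Pool.NF

namespace Cna25

variable {K : Type} [Field K] [NumberField K]

theorem inj : Function.Injective (algebraMap (𝓞 K) K) := IsFractionRing.injective (𝓞 K) K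

theorem symm_of {f : (𝓞 K)[X]} {p : K[X]} {k : ℕ} {E : Matrix (Fin 3) (Fin 3) K}
    {G : Matrix (Fin 3) (Fin 3) (𝓞 K)}
    (h : Eᵀ * gr k 3 (fk K f) p * E = G.map (algebraMap (𝓞 K) K)) : Gᵀ = G := by
  have h1 : (Gᵀ).map (algebraMap (𝓞 K) K) = G.map (algebraMap (𝓞 K) K) := by
    rw [Matrix.transpose_map, ← h, Matrix.transpose_mul, Matrix.transpose_mul,
      Matrix.transpose_transpose, Pool.T1.H96K.gr_symm, Matrix.mul_assoc]
  refine Matrix.ext fun i j => inj ?_
  exact congrFun (congrFun h1 i) j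

theorem pen_of {f : (𝓞 K)[X]} {p : K[X]} {E : Matrix (Fin 3) (Fin 3) K}
    {G S : Matrix (Fin 3) (Fin 3) (𝓞 K)} (hm : f.Monic) (hd : f.natDegree = 3)
    (hG : Eᵀ * gr 0 3 (fk K f) p * E = G.map (algebraMap (𝓞 K) K))
    (hS : Eᵀ * gr 1 3 (fk K f) p * E = S.map (algebraMap (𝓞 K) K)) (h0 : G.det ≠ 0) :
    (pen G S).det = C G.det * f := by
  have hfm : (fk K f).Monic := hm.map _
  have hfd : (fk K f).natDegree = 3 := by rw [fk, hm.natDegree_map, hd]
  have hdet : (G.map (algebraMap (𝓞 K) K)).det = algebraMap (𝓞 K) K G.det := by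
    rw [RingHom.map_det]
    rfl
  have hKd : (G.map (algebraMap (𝓞 K) K)).det ≠ 0 := by
    rw [hdet]
    exact fun h => h0 (inj (by rw [h, map_zero]))
  have hrep : Rep 3 (fk K f) p (G.map (algebraMap (𝓞 K) K)) (S.map (algebraMap (𝓞 K) K)) := by
    rw [← hG, ← hS]
    exact Pool.HYP.H2.rep_comb _ _ _
  have h3 := Pool.HYP.chp K 3 (fk K f) p (G.map (algebraMap (𝓞 K) K))
    (S.map (algebraMap (𝓞 K) K)) hfm hfd hrep hKd
  rw [CT1K77.pen_map, hdet] at h3
  refine Polynomial.map_injective _ inj ?_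
  rw [Polynomial.map_mul, Polynomial.map_C]
  exact h3

theorem pen_conj' {f : (𝓞 K)[X]} {G S u : Matrix (Fin 3) (Fin 3) (𝓞 K)}
    (h : (pen G S).det = C G.det * f) :
    (pen (uᵀ * G * u) (uᵀ * S * u)).det = C (uᵀ * G * u).det * f := by
  rw [CT1K77.pen_conj, CT1K77.det_conj, CT1K77.det_conj, h]
  have : (u.map C).det = C u.det := by
    rw [← RingHom.mapMatrix_apply, ← RingHom.map_det]
  rw [this, C_mul, C_pow]
  ring

theorem uu_det {d : Fin 3 → ℝ} {u : Matrix (Fin 3) (Fin 3) (𝓞 K)} (hu : u ∈ UUn K d) :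
    u.det = 1 := by
  rw [Matrix.det_of_isUpperTriangular (fun i j hij => hu.2.1 i j hij)]
  exact Finset.prod_eq_one fun i _ => hu.1 i

theorem conj_map (E : Matrix (Fin 3) (Fin 3) K) (u G : Matrix (Fin 3) (Fin 3) (𝓞 K))
    (A : Matrix (Fin 3) (Fin 3) K) (h : Eᵀ * A * E = G.map (algebraMap (𝓞 K) K)) :
    (E * u.map (algebraMap (𝓞 K) K))ᵀ * A * (E * u.map (algebraMap (𝓞 K) K)) =
      (uᵀ * G * u).map (algebraMap (𝓞 K) K) := by
  rw [CT1K77.mK_conj, ← h, Matrix.transpose_mul]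
  simp only [Matrix.mul_assoc]

end Cna25

open Cna25 in
/-- CNA. -/
theorem cna (hORB : ORBStmt) : CNAStmt := by
  classical
  intro K _ _ C Y D d F A hC hY hT hd hF hA hPM hW
  rcases (UUn K fun i => (d i : ℝ)).finite_or_infinite with hU | hU
  swap
  · rw [hU.ncard, mul_zero]
    exact Nat.zero_le _
  choose! E G S hE hG hS hGb hSb hG0 hnz using hPM
  have hds : ∀ z ∈ A, (G z)ᵀ = G z := fun z hz => symm_of (hG z hz)
  have hss : ∀ z ∈ A, (S z)ᵀ = S z := fun z hz => symm_of (hS z hz)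
  have hpen : ∀ z ∈ A, (pen (G z) (S z)).det = Polynomial.C (G z).det * z.1 := fun z hz =>
    pen_of (hF _ (hA.1 z hz).1).1 (hF _ (hA.1 z hz).1).2 (hG z hz) (hS z hz) (hG0 z hz)
  have hcard : A.card * (UUn K fun i => (d i : ℝ)).ncard =
      ((A : Set ((𝓞 K)[X] × K[X])) ×ˢ (UUn K fun i => (d i : ℝ))).ncard := by
    rw [Set.ncard_prod, Set.ncard_coe_finset]
  rw [hcard]
  refine Set.ncard_le_ncard_of_injOn
    (fun x : ((𝓞 K)[X] × K[X]) × Matrix (Fin 3) (Fin 3) (𝓞 K) =>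
      (x.2ᵀ * G x.1 * x.2, x.2ᵀ * S x.1 * x.2)) ?_ ?_ hW
  · rintro ⟨z, u⟩ ⟨hz, hu⟩
    have hz' : z ∈ A := hz
    have hcast : ∀ i j : Fin 3, Real.exp ((d i + d j : ℤ) : ℝ) =
        Real.exp ((d i : ℝ) + (d j : ℝ)) := fun i j => by push_cast; rfl
    refine ⟨?_, ?_, fun i j => ?_, fun i j => ?_, fun P hP => ?_⟩
    · show (uᵀ * G z * u)ᵀ = uᵀ * G z * u
      rw [Matrix.transpose_mul, Matrix.transpose_mul, Matrix.transpose_transpose, hds z hz',
        Matrix.mul_assoc]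
    · show (uᵀ * S z * u)ᵀ = uᵀ * S z * u
      rw [Matrix.transpose_mul, Matrix.transpose_mul, Matrix.transpose_transpose, hss z hz',
        Matrix.mul_assoc]
    · refine NCO50.bx_conj (d := fun i => (d i : ℝ)) hC (NCO50.uu_bx hu) (fun i j => ?_) i j
      have := hGb z hz' i j
      rwa [hcast] at this
    · have h3 := NCO50.bx_conj (d := fun i => (d i : ℝ)) (mul_nonneg hC hY) (NCO50.uu_bx hu)
        (G := S z) (fun i j => by
          have := hSb z hz' i j
          rwa [hcast] at this) i j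
      rwa [show 9 * (C * Y) = 9 * C * Y by ring] at h3
    · rw [hT] at hP
      exact absurd hP (Finset.notMem_empty _)
  · rintro ⟨z, u⟩ ⟨hz, hu⟩ ⟨w, v⟩ ⟨hw, hv⟩ hΦ
    have hz' : z ∈ A := hz
    have hw' : w ∈ A := hw
    have hu' : u ∈ UUn K fun i => (d i : ℝ) := hu
    have hv' : v ∈ UUn K fun i => (d i : ℝ) := hv
    have e1 : uᵀ * G z * u = vᵀ * G w * v := congrArg Prod.fst hΦ
    have e2 : uᵀ * S z * u = vᵀ * S w * v := congrArg Prod.snd hΦ
    have hf : z.1 = w.1 := by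
      have h1 := pen_conj' (u := u) (hpen z hz')
      have h2 := pen_conj' (u := v) (hpen w hw')
      rw [e1, e2, h2] at h1
      have h3 : (Polynomial.C (vᵀ * G w * v).det : (𝓞 K)[X]) ≠ 0 := by
        rw [Ne, C_eq_zero, CT1K77.det_conj, uu_det hv', one_pow, one_mul]
        exact hG0 w hw'
      exact (mul_left_cancel₀ h3 h1).symm
    have hdm : ∀ m : Matrix (Fin 3) (Fin 3) (𝓞 K), m.det = 1 →
        (m.map (algebraMap (𝓞 K) K)).det = 1 := fun m hm => by
      have : (m.map (algebraMap (𝓞 K) K)).det = algebraMap (𝓞 K) K m.det := by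
        rw [RingHom.map_det]
        rfl
      rw [this, hm, map_one]
    have hdA : (E z * u.map (algebraMap (𝓞 K) K)).det ≠ 0 := by
      rw [Matrix.det_mul, hdm u (uu_det hu'), mul_one]
      exact hE z hz'
    have hdB : (E w * v.map (algebraMap (𝓞 K) K)).det ≠ 0 := by
      rw [Matrix.det_mul, hdm v (uu_det hv'), mul_one]
      exact hE w hw'
    have hm := (hF _ (hA.1 z hz').1).1
    have hdg := (hF _ (hA.1 z hz').1).2
    have hirr := (hA.1 z hz').2.1
    have hcz := (hA.1 z hz').2.2.1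
    have hcw := (hA.1 w hw').2.2.1
    have kG : ∀ (x : (𝓞 K)[X] × K[X]) (m : Matrix (Fin 3) (Fin 3) (𝓞 K)), x ∈ A →
        (E x * m.map (algebraMap (𝓞 K) K))ᵀ * gr 0 3 (fk K x.1) x.2 *
          (E x * m.map (algebraMap (𝓞 K) K)) = (mᵀ * G x * m).map (algebraMap (𝓞 K) K) :=
      fun x m hx => conj_map _ _ _ _ (hG x hx)
    have kS : ∀ (x : (𝓞 K)[X] × K[X]) (m : Matrix (Fin 3) (Fin 3) (𝓞 K)), x ∈ A →
        (E x * m.map (algebraMap (𝓞 K) K))ᵀ * gr 1 3 (fk K x.1) x.2 *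
          (E x * m.map (algebraMap (𝓞 K) K)) = (mᵀ * S x * m).map (algebraMap (𝓞 K) K) :=
      fun x m hx => conj_map _ _ _ _ (hS x hx)
    have hgw := kG w v hw'
    have hsw := kS w v hw'
    rw [← hf] at hgw hsw hcw
    obtain ⟨h1, h2⟩ := hORB K (fk K z.1) z.2 w.2 (E z * u.map (algebraMap (𝓞 K) K))
      (E w * v.map (algebraMap (𝓞 K) K)) (hm.map _) (by rw [fk, hm.natDegree_map, hdg]) hirr
      hcz hcw hdA hdB (by rw [kG z u hz', hgw, e1]) (by rw [kS z u hz', hsw, e2])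
    have hzw : z = w := hA.2 z hz' w hw' hf h1
    subst hzw
    have hmi : Function.Injective fun A : Matrix (Fin 3) (Fin 3) (𝓞 K) =>
        A.map (algebraMap (𝓞 K) K) := Matrix.map_injective inj
    have hcan : ∀ a b : Matrix (Fin 3) (Fin 3) K, E z * a = E z * b → a = b := fun a b hab => by
      have hu : IsUnit (E z).det := isUnit_iff_ne_zero.2 (hE z hz')
      have h5 := congrArg (fun M => (E z)⁻¹ * M) hab
      simp only [← Matrix.mul_assoc, Matrix.nonsing_inv_mul _ hu, Matrix.one_mul] at h5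
      exact h5
    rcases h2 rfl with h4 | h4
    · exact Prod.ext rfl (hmi (hcan _ _ h4))
    · exfalso
      rw [← Matrix.mul_neg] at h4
      have h5 := hcan _ _ h4
      have h6 := congrFun (congrFun h5 0) 0
      rw [Matrix.neg_apply, Matrix.map_apply, Matrix.map_apply, hu'.1 0, hv'.1 0, map_one] at h6
      have h7 : (2 : K) = 0 := by linear_combination h6
      exact two_ne_zero h7

end Pool.NFA
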