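import Pool.Agent.H33.NFA.A
import Pool.Agent.H20.HYP.TRN

/-!
# NFA, row TRAA: translation of a class
-/

set_option autoImplicit false

namespace Pool.NFA

open Polynomial Matrix NumberField IsDedekindDomain Pool.HYP Pool.HYP.H20 Pool.TOW Pool.AVS
  Pool.T1 Pool.NF

/-- TRAA. -/
theorem traa : TRAAStmt := by
  intro K _ f p c _ hN
  obtain ⟨hcop, hsq, hloc, hns⟩ := hN
  have e : (X - C c : K[X]) = X + C (-c) := by rw [C_neg, sub_eq_add_neg]
  rw [e]
  refine ⟨?_, ?_, ?_, ?_⟩
  · obtain ⟨a, b, hab⟩ := hcop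
    refine ⟨a.comp (X + C (-c)), b.comp (X + C (-c)), ?_⟩
    have h2 := congrArg (fun p => p.comp (X + C (-c))) hab
    simp only [add_comp, mul_comp, one_comp] at h2
    exact h2
  · have h3 := Algebra.norm_eq_of_algEquiv (trE f (f.comp (X + C (-c))) (-c) rfl)
      (AdjoinRoot.mk f p)
    rw [trE_mk] at h3
    show IsSquare (Algebra.norm K (AdjoinRoot.mk (f.comp (X + C (-c))) (p.comp (X + C (-c)))))
    rw [h3]
    exact hsq
  · intro L _ O ι hι
    obtain ⟨x, y, s, h1, h2, a, ha⟩ := hloc L O ι hι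
    have hm : ∀ q : K[X], (q.comp (X + C (-c))).map ι = (q.map ι).comp (X + C (-ι c)) := by
      intro q
      rw [Polynomial.map_comp]
      simp
    refine ⟨x + ι c, y, s.comp (X + C (-ι c)), ?_, h2, a.comp (X + C (-ι c)), ?_⟩
    · rw [hm, eval_comp]
      simp only [eval_add, eval_X, eval_C]
      rw [show x + ι c + -ι c = x by ring]
      exact h1
    · rw [hm, hm, ← mul_comp, ← ha]
      simp only [sub_comp, mul_comp, pow_comp, C_comp, X_comp, C_neg, C_add]
      ring
  · rintro ⟨s, a, ha⟩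
    refine hns ⟨s.comp (X + C c), a.comp (X + C c), ?_⟩
    have h3 := congrArg (fun p => p.comp (X + C c)) ha
    simp only [sub_comp, mul_comp, pow_comp] at h3
    have hb : ∀ q : K[X], (q.comp (X + C (-c))).comp (X + C c) = q := fun q => by
      have := comp_comp_add q (-c)
      rwa [neg_neg] at this
    rw [hb, hb] at h3
    exact h3

end Pool.NFA
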